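import Mathlib

/-!
# Fréchet algebras, Fréchet modules, injectivity

Definitions, and the algebra `z ℂ[[z]]` over which there is no non-zero injective Fréchet module.
-/

set_option autoImplicit false

universe u v

namespace Pool.Agent.H352R2

open Topology Filter

/-- A complex Fréchet space: a complex topological vector space (with its canonical uniform
structure) that is locally convex, metrizable and complete. -/
class FrechetSpace (E : Type*) [AddCommGroup E] [Module ℂ E] [UniformSpace E] : Prop where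
  isUniformAddGroup : IsUniformAddGroup E
  continuousSMul : ContinuousSMul ℂ E
  locallyConvex : LocallyConvexSpace ℝ E
  metrizable : TopologicalSpace.MetrizableSpace E
  complete : CompleteSpace E

attribute [instance] FrechetSpace.isUniformAddGroup FrechetSpace.continuousSMul
  FrechetSpace.locallyConvex FrechetSpace.metrizable FrechetSpace.complete

/-- A Fréchet algebra: a Fréchet space with an associative bilinear multiplication that is jointly
continuous. It need not have a unit. -/
structure FrechetAlg where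
  /-- the underlying set -/
  carrier : Type
  [addCommGroup : AddCommGroup carrier]
  [module : Module ℂ carrier]
  [uniformSpace : UniformSpace carrier]
  [frechet : FrechetSpace carrier]
  /-- the multiplication -/
  mul : carrier →ₗ[ℂ] carrier →ₗ[ℂ] carrier
  mul_assoc : ∀ a b c, mul (mul a b) c = mul a (mul b c)
  continuous_mul : Continuous fun p : carrier × carrier => mul p.1 p.2

attribute [instance] FrechetAlg.addCommGroup FrechetAlg.module FrechetAlg.uniformSpace
  FrechetAlg.frechet

/-- A Fréchet (left) module over a Fréchet algebra: a Fréchet space with a bilinear, associative,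
jointly continuous left action. -/
structure FrechetMod (A : FrechetAlg) where
  /-- the underlying set -/
  carrier : Type u
  [addCommGroup : AddCommGroup carrier]
  [module : Module ℂ carrier]
  [uniformSpace : UniformSpace carrier]
  [frechet : FrechetSpace carrier]
  /-- the action -/
  act : A.carrier →ₗ[ℂ] carrier →ₗ[ℂ] carrier
  act_mul : ∀ a b x, act (A.mul a b) x = act a (act b x)
  continuous_act : Continuous fun p : A.carrier × carrier => act p.1 p.2

attribute [instance] FrechetMod.addCommGroup FrechetMod.module FrechetMod.uniformSpace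
  FrechetMod.frechet

variable {A : FrechetAlg}

/-- A continuous linear map between Fréchet modules that is a morphism of modules. -/
def IsModuleMap {X : FrechetMod.{u} A} {Y : FrechetMod.{v} A} (φ : X.carrier →L[ℂ] Y.carrier) :
    Prop :=
  ∀ a x, φ (X.act a x) = Y.act a (φ x)

/-- A Fréchet module `X` is injective if every morphism `φ : X → Y` of Fréchet modules that has a
continuous linear left inverse has a left inverse which is a morphism of Fréchet modules. -/
def FrechetMod.Injective (X : FrechetMod.{u} A) : Prop :=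
  ∀ (Y : FrechetMod.{u} A) (φ : X.carrier →L[ℂ] Y.carrier), IsModuleMap φ →
    (∃ ψ : Y.carrier →L[ℂ] X.carrier, ∀ x, ψ (φ x) = x) →
    ∃ ψ : Y.carrier →L[ℂ] X.carrier, IsModuleMap ψ ∧ ∀ x, ψ (φ x) = x

/-- The data of a sequence `X → J 0 → J 1 → ⋯` of Fréchet modules and continuous linear maps. -/
structure ModuleSeq (X : FrechetMod.{u} A) where
  /-- the modules -/
  J : ℕ → FrechetMod.{v} A
  /-- the augmentation -/
  ι : X.carrier →L[ℂ] (J 0).carrier
  /-- the differentials -/
  d : ∀ n, (J n).carrier →L[ℂ] (J (n + 1)).carrier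

variable {X : FrechetMod.{u} A}

/-- The maps are module maps. -/
def ModuleSeq.Linear (K : ModuleSeq.{u, v} X) : Prop :=
  IsModuleMap K.ι ∧ ∀ n, IsModuleMap (K.d n)

/-- The composition of two successive maps is zero. -/
def ModuleSeq.IsComplex (K : ModuleSeq.{u, v} X) : Prop :=
  (∀ x, K.d 0 (K.ι x) = 0) ∧ ∀ n x, K.d (n + 1) (K.d n x) = 0

/-- `s`, `t` is a contracting homotopy of the complex `0 → X → J 0 → J 1 → ⋯`. -/
def ModuleSeq.Homotopy (K : ModuleSeq.{u, v} X) (s : (K.J 0).carrier →L[ℂ] X.carrier)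
    (t : ∀ n, (K.J (n + 1)).carrier →L[ℂ] (K.J n).carrier) : Prop :=
  (∀ x, s (K.ι x) = x) ∧ (∀ x, K.ι (s x) + t 0 (K.d 0 x) = x) ∧
    ∀ n x, K.d n (t n x) + t (n + 1) (K.d (n + 1) x) = x

/-- The complex `0 → X → J 0 → J 1 → ⋯` splits as a complex of topological vector spaces. -/
def ModuleSeq.Admissible (K : ModuleSeq.{u, v} X) : Prop :=
  ∃ s t, K.Homotopy s t

/-- The Fréchet module `X` has an injective coresolution: an admissible complex
`0 → X → J 0 → J 1 → ⋯` of Fréchet modules with all the `J n` injective. -/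
def HasInjectiveCoresolution (X : FrechetMod.{u} A) : Prop :=
  ∃ K : ModuleSeq.{u, v} X, K.Linear ∧ K.IsComplex ∧ K.Admissible ∧ ∀ n, (K.J n).Injective

/-! ### The algebra `z ℂ[[z]]` -/

/-- The power series `a_0 + a_1 z + ⋯` attached to a sequence. -/
noncomputable def ps (a : ℕ → ℂ) : PowerSeries ℂ := PowerSeries.mk a

lemma ps_inj {a b : ℕ → ℂ} (h : ps a = ps b) : a = b := by
  funext n
  have := congrArg (PowerSeries.coeff n) h
  simpa [ps] using this

/-- The product of `z a(z)` and `z b(z)`, divided by `z`: the sequence of coefficients of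
`z a(z) b(z)`. -/
noncomputable def zmul (a b : ℕ → ℂ) : ℕ → ℂ := fun n =>
  PowerSeries.coeff n (PowerSeries.X * (ps a * ps b))

lemma ps_zmul (a b : ℕ → ℂ) : ps (zmul a b) = PowerSeries.X * (ps a * ps b) := by
  ext n
  simp [ps, zmul]

lemma zmul_zero_coeff (a b : ℕ → ℂ) : zmul a b 0 = 0 := by
  simp [zmul]

lemma zmul_succ_coeff (a b : ℕ → ℂ) (n : ℕ) :
    zmul a b (n + 1) = ∑ p ∈ Finset.HasAntidiagonal.antidiagonal n, a p.1 * b p.2 := by
  rw [zmul, PowerSeries.coeff_succ_X_mul, PowerSeries.coeff_mul]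
  simp [ps]

lemma ps_add (a b : ℕ → ℂ) : ps (a + b) = ps a + ps b := by
  ext n; simp [ps]

lemma ps_smul (c : ℂ) (a : ℕ → ℂ) : ps (c • a) = c • ps a := by
  ext n; simp [ps]

/-- The bilinear multiplication. -/
noncomputable def zmulₗ : (ℕ → ℂ) →ₗ[ℂ] (ℕ → ℂ) →ₗ[ℂ] (ℕ → ℂ) :=
  LinearMap.mk₂ ℂ zmul
    (fun a a' b => ps_inj (by rw [ps_zmul, ps_add, ps_add, ps_zmul, ps_zmul]; ring))
    (fun c a b => ps_inj (by
      rw [ps_zmul, ps_smul, ps_smul, ps_zmul, smul_mul_assoc, mul_smul_comm]))
    (fun a b b' => ps_inj (by rw [ps_zmul, ps_add, ps_add, ps_zmul, ps_zmul]; ring))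
    (fun c a b => ps_inj (by
      rw [ps_zmul, ps_smul, ps_smul, ps_zmul, mul_smul_comm, mul_smul_comm]))

lemma continuous_zmul : Continuous fun p : (ℕ → ℂ) × (ℕ → ℂ) => zmul p.1 p.2 := by
  apply continuous_pi
  intro n
  cases n with
  | zero => simpa [zmul_zero_coeff] using continuous_const
  | succ n =>
    simp only [zmul_succ_coeff]
    fun_prop

instance : FrechetSpace (ℕ → ℂ) where
  isUniformAddGroup := inferInstance
  continuousSMul := inferInstance
  locallyConvex := inferInstance
  metrizable := UniformSpace.metrizableSpace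
  complete := inferInstance

/-- The Fréchet algebra `z ℂ[[z]]` of formal power series without constant term, with the topology
of coefficientwise convergence. The sequence `a` stands for `∑ a_n z^(n+1)`. -/
noncomputable def zC : FrechetAlg where
  carrier := ℕ → ℂ
  mul := zmulₗ
  mul_assoc := fun a b c => ps_inj (by
    change ps (zmul (zmul a b) c) = ps (zmul a (zmul b c))
    rw [ps_zmul, ps_zmul, ps_zmul, ps_zmul]; ring)
  continuous_mul := continuous_zmul

/-- Division by `z` after dropping the `z`-term. -/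
def shift : (ℕ → ℂ) →ₗ[ℂ] (ℕ → ℂ) where
  toFun a := fun n => a (n + 1)
  map_add' _ _ := rfl
  map_smul' _ _ := rfl

lemma continuous_shift : Continuous shift :=
  continuous_pi fun n => continuous_apply (n + 1)

lemma ps_shift (b : ℕ → ℂ) : ps b = PowerSeries.C (b 0) + PowerSeries.X * ps (shift b) := by
  ext n
  cases n with
  | zero => simp [ps]
  | succ n => simp [ps, shift, PowerSeries.coeff_succ_X_mul]

lemma shift_zmul (a b : ℕ → ℂ) : shift (zmul a b) = b 0 • a + zmul a (shift b) := by
  apply ps_inj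
  have h : ps (shift (zmul a b)) = ps a * ps b := by
    have h1 := ps_shift (zmul a b)
    rw [zmul_zero_coeff, map_zero, zero_add, ps_zmul] at h1
    exact (mul_left_cancel₀ PowerSeries.X_ne_zero h1).symm
  rw [h, ps_add, ps_smul, ps_zmul]
  conv_lhs => rw [ps_shift b]
  rw [PowerSeries.smul_eq_C_mul]
  ring

instance {E F : Type*} [AddCommGroup E] [Module ℂ E] [UniformSpace E] [FrechetSpace E]
    [AddCommGroup F] [Module ℂ F] [UniformSpace F] [FrechetSpace F] : FrechetSpace (E × F) where
  isUniformAddGroup := inferInstance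
  continuousSMul := inferInstance
  locallyConvex := by
    have : LocallyConvexSpace ℝ E := inferInstance
    exact inferInstance
  metrizable := inferInstance
  complete := inferInstance

section ExtAct

variable {E : Type*} [AddCommGroup E] [Module ℂ E]

/-- The action `z (x, y) = (z x + y, 0)` on `E × E`. -/
noncomputable def extAct (act : (ℕ → ℂ) →ₗ[ℂ] E →ₗ[ℂ] E) : (ℕ → ℂ) →ₗ[ℂ] (E × E) →ₗ[ℂ] (E × E) :=
  LinearMap.mk₂ ℂ
    (fun (a : ℕ → ℂ) (p : E × E) => ((act a p.1 + a 0 • p.2 + act (shift a) p.2, 0) : E × E))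
    (fun a a' p => by
      ext
      · simp only [map_add, LinearMap.add_apply, Pi.add_apply, add_smul, Prod.fst_add]
        abel
      · simp)
    (fun c a p => by
      ext
      · simp [smul_smul]
      · simp)
    (fun a p p' => by
      ext
      · simp only [map_add, smul_add, Prod.fst_add, Prod.snd_add]
        abel
      · simp)
    (fun c a p => by
      ext
      · simp [smul_comm c]
      · simp)

lemma extAct_apply (act : (ℕ → ℂ) →ₗ[ℂ] E →ₗ[ℂ] E) (a : ℕ → ℂ) (p : E × E) :
    extAct act a p = (act a p.1 + a 0 • p.2 + act (shift a) p.2, 0) := rfl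

lemma extAct_mul (act : (ℕ → ℂ) →ₗ[ℂ] E →ₗ[ℂ] E)
    (h : ∀ a b x, act (zmul a b) x = act a (act b x)) (a b : ℕ → ℂ) (p : E × E) :
    extAct act (zmul a b) p = extAct act a (extAct act b p) := by
  rw [extAct_apply, extAct_apply, extAct_apply]
  ext
  · simp only [h, shift_zmul, map_add, map_smul, LinearMap.add_apply, LinearMap.smul_apply,
      zmul_zero_coeff, zero_smul, smul_zero, add_zero, map_zero]
    abel
  · rfl

lemma continuous_extAct [UniformSpace E] [FrechetSpace E] (act : (ℕ → ℂ) →ₗ[ℂ] E →ₗ[ℂ] E)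
    (hc : Continuous fun p : (ℕ → ℂ) × E => act p.1 p.2) :
    Continuous fun p : (ℕ → ℂ) × (E × E) => extAct act p.1 p.2 := by
  simp only [extAct_apply]
  refine Continuous.prodMk ?_ continuous_const
  refine (Continuous.add ?_ ?_).add ?_
  · exact hc.comp (continuous_fst.prodMk (continuous_fst.comp continuous_snd))
  · exact ((continuous_apply 0).comp continuous_fst).smul (continuous_snd.comp continuous_snd)
  · exact hc.comp ((continuous_shift.comp continuous_fst).prodMk
      (continuous_snd.comp continuous_snd))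

end ExtAct

/-- The extension `X ⊕ X` of `X` in which every element of the first summand is divisible by `z`:
`z (x, y) = (z x + y, 0)`. -/
noncomputable def ext (X : FrechetMod.{u} zC) : FrechetMod.{u} zC where
  carrier := X.carrier × X.carrier
  act := extAct X.act
  act_mul := extAct_mul X.act X.act_mul
  continuous_act := continuous_extAct X.act X.continuous_act

/-- The element `z ^ (n + 1)`. -/
noncomputable def zpow (n : ℕ) : ℕ → ℂ := Pi.single n 1

lemma ps_zpow (n : ℕ) : ps (zpow n) = PowerSeries.X ^ n := by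
  ext m
  simp [ps, zpow, PowerSeries.coeff_X_pow, Pi.single_apply]

lemma zmul_zpow (n : ℕ) : zmul (zpow 0) (zpow n) = zpow (n + 1) := by
  apply ps_inj
  rw [ps_zmul, ps_zpow, ps_zpow, ps_zpow]
  ring

section Raw

variable {E : Type*} [AddCommGroup E] [Module ℂ E]

lemma extAct_zpow_zero (act : (ℕ → ℂ) →ₗ[ℂ] E →ₗ[ℂ] E) (x : E) :
    extAct act (zpow 0) (0, x) = (x, 0) := by
  have h4 : shift (zpow 0) = 0 := by
    funext n
    simp [shift, zpow]
  rw [extAct_apply, h4]
  simp [zpow]

lemma extAct_inl (act : (ℕ → ℂ) →ₗ[ℂ] E →ₗ[ℂ] E) (a : ℕ → ℂ) (x : E) :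
    (act a x, (0 : E)) = extAct act a (x, 0) := by
  rw [extAct_apply]
  simp

lemma raw_div (act : (ℕ → ℂ) →ₗ[ℂ] E →ₗ[ℂ] E) (ψ : E × E → E)
    (h1 : ∀ a p, ψ (extAct act a p) = act a (ψ p)) (h2 : ∀ x, ψ (x, 0) = x) (x : E) :
    ∃ y, act (zpow 0) y = x := by
  refine ⟨ψ (0, x), ?_⟩
  rw [← h1, extAct_zpow_zero, h2]

lemma raw_div_pow (act : (ℕ → ℂ) →ₗ[ℂ] E →ₗ[ℂ] E)
    (h : ∀ a b x, act (zmul a b) x = act a (act b x))
    (hd : ∀ x, ∃ y, act (zpow 0) y = x) (n : ℕ) (x : E) :
    ∃ y, act (zpow n) y = x := by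
  induction n generalizing x with
  | zero => exact hd x
  | succ n ih =>
    obtain ⟨y, hy⟩ := hd x
    obtain ⟨w, hw⟩ := ih y
    refine ⟨w, ?_⟩
    rw [← zmul_zpow, h, hw, hy]

lemma raw_zero [UniformSpace E] [FrechetSpace E] (act : (ℕ → ℂ) →ₗ[ℂ] E →ₗ[ℂ] E)
    (h : ∀ a b x, act (zmul a b) x = act a (act b x))
    (hc : Continuous fun p : (ℕ → ℂ) × E => act p.1 p.2)
    (hd : ∀ x, ∃ y, act (zpow 0) y = x) (x : E) : x = 0 := by
  by_contra hx
  have hU : {p : (ℕ → ℂ) × E | act p.1 p.2 ≠ x} ∈ 𝓝 ((0 : ℕ → ℂ), (0 : E)) := by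
    apply (isOpen_ne.preimage hc).mem_nhds
    simpa using (Ne.symm hx)
  rw [nhds_prod_eq, Filter.mem_prod_iff] at hU
  obtain ⟨S, hS, V, hV, hSV⟩ := hU
  rw [nhds_pi, Filter.mem_pi] at hS
  obtain ⟨I, hI, t, ht, hIS⟩ := hS
  obtain ⟨N, hN⟩ : ∃ N : ℕ, ∀ i ∈ I, i < N := by
    obtain ⟨M, hM⟩ := hI.bddAbove
    exact ⟨M + 1, fun i hi => Nat.lt_succ_of_le (hM hi)⟩
  obtain ⟨y, hy⟩ := raw_div_pow act h hd N x
  -- scale `y` into `V`
  obtain ⟨c, hc0, hcV⟩ : ∃ c : ℂ, c ≠ 0 ∧ c • y ∈ V := by
    have h1 : Tendsto (fun c : ℂ => c • y) (𝓝 0) (𝓝 ((0 : ℂ) • y)) :=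
      (continuous_id.smul continuous_const).tendsto 0
    rw [zero_smul] at h1
    have h2 : ∀ᶠ c : ℂ in 𝓝[≠] 0, c • y ∈ V := (h1.mono_left nhdsWithin_le_nhds) hV
    have h3 : ∀ᶠ c : ℂ in 𝓝[≠] 0, c ≠ 0 := eventually_mem_nhdsWithin
    obtain ⟨c, hc⟩ := (h2.and h3).exists
    exact ⟨c, hc.2, hc.1⟩
  have h4 : (c⁻¹ • zpow N : ℕ → ℂ) ∈ S := by
    apply hIS
    intro i hi
    have h5 : (c⁻¹ • zpow N : ℕ → ℂ) i = 0 := by
      have : i ≠ N := (hN i hi).ne
      simp [zpow, this]
    rw [h5]
    exact mem_of_mem_nhds (ht i)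
  have h6 := hSV (Set.mk_mem_prod h4 hcV)
  apply h6
  change act (c⁻¹ • zpow N) (c • y) = x
  rw [map_smul, map_smul, LinearMap.smul_apply, smul_smul, mul_inv_cancel₀ hc0, one_smul, hy]

end Raw

/-- There is no non-zero injective Fréchet module over `z ℂ[[z]]`. -/
theorem eq_zero_of_injective (X : FrechetMod.{u} zC) (hX : X.Injective) (x : X.carrier) :
    x = 0 := by
  obtain ⟨ψ, h1, h2⟩ := hX (ext X) (ContinuousLinearMap.inl ℂ X.carrier X.carrier)
    (fun a x => extAct_inl X.act a x)
    ⟨ContinuousLinearMap.fst ℂ X.carrier X.carrier, fun x => rfl⟩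
  exact raw_zero X.act X.act_mul X.continuous_act (raw_div X.act ψ h1 h2) x

end Pool.Agent.H352R2
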