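import Pool.Agent.H352R2.Frechet

/-!
# The unital version: unital modules over `ℂ[[z]]`
-/

set_option autoImplicit false

universe u v

namespace Pool.Agent.H352R2

open Topology Filter

variable {A : FrechetAlg}

/-- `e` is a two-sided unit of `A`. -/
def IsUnitElement (A : FrechetAlg) (e : A.carrier) : Prop :=
  ∀ a, A.mul e a = a ∧ A.mul a e = a

/-- The module `X` is unital with respect to the unit `e`. -/
def FrechetMod.Unital (X : FrechetMod.{u} A) (e : A.carrier) : Prop :=
  ∀ x, X.act e x = x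

/-- Injectivity in the category of unital Fréchet modules: the test modules `Y` are
the unital ones. -/
def FrechetMod.UnitalInjective (X : FrechetMod.{u} A) (e : A.carrier) : Prop :=
  X.Unital e ∧
  ∀ (Y : FrechetMod.{u} A) (φ : X.carrier →L[ℂ] Y.carrier), Y.Unital e → IsModuleMap φ →
    (∃ ψ : Y.carrier →L[ℂ] X.carrier, ∀ x, ψ (φ x) = x) →
    ∃ ψ : Y.carrier →L[ℂ] X.carrier, IsModuleMap ψ ∧ ∀ x, ψ (φ x) = x

/-- The product of formal power series, on coefficient sequences. -/
noncomputable def cmul (a b : ℕ → ℂ) : ℕ → ℂ := fun n =>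
  PowerSeries.coeff n (ps a * ps b)

lemma ps_cmul (a b : ℕ → ℂ) : ps (cmul a b) = ps a * ps b := by
  ext n
  simp [ps, cmul]

lemma cmul_apply (a b : ℕ → ℂ) (n : ℕ) :
    cmul a b n = ∑ p ∈ Finset.HasAntidiagonal.antidiagonal n, a p.1 * b p.2 := by
  rw [cmul, PowerSeries.coeff_mul]
  simp [ps]

/-- The bilinear multiplication. -/
noncomputable def cmulₗ : (ℕ → ℂ) →ₗ[ℂ] (ℕ → ℂ) →ₗ[ℂ] (ℕ → ℂ) :=
  LinearMap.mk₂ ℂ cmul
    (fun a a' b => ps_inj (by rw [ps_cmul, ps_add, ps_add, ps_cmul, ps_cmul]; ring))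
    (fun c a b => ps_inj (by
      rw [ps_cmul, ps_smul, ps_smul, ps_cmul, smul_mul_assoc]))
    (fun a b b' => ps_inj (by rw [ps_cmul, ps_add, ps_add, ps_cmul, ps_cmul]; ring))
    (fun c a b => ps_inj (by
      rw [ps_cmul, ps_smul, ps_smul, ps_cmul, mul_smul_comm]))

lemma continuous_cmul : Continuous fun p : (ℕ → ℂ) × (ℕ → ℂ) => cmul p.1 p.2 := by
  apply continuous_pi
  intro n
  simp only [cmul_apply]
  fun_prop

/-- The Fréchet algebra `ℂ[[z]]` of formal power series, with the topology of coefficientwise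
convergence. The sequence `a` stands for `∑ a_n z^n`. -/
noncomputable def fps : FrechetAlg where
  carrier := ℕ → ℂ
  mul := cmulₗ
  mul_assoc := fun a b c => ps_inj (by
    change ps (cmul (cmul a b) c) = ps (cmul a (cmul b c))
    rw [ps_cmul, ps_cmul, ps_cmul, ps_cmul]; ring)
  continuous_mul := continuous_cmul

lemma cmul_comm (a b : ℕ → ℂ) : cmul a b = cmul b a :=
  ps_inj (by rw [ps_cmul, ps_cmul, mul_comm])

/-- The unit of `ℂ[[z]]`. -/
noncomputable def fone : ℕ → ℂ := Pi.single 0 1

lemma ps_fone : ps fone = 1 := by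
  ext m
  simp [ps, fone, PowerSeries.coeff_one, Pi.single_apply]

lemma fone_cmul (a : ℕ → ℂ) : cmul fone a = a :=
  ps_inj (by rw [ps_cmul, ps_fone, one_mul])

lemma isUnitElement_fone : IsUnitElement fps fone := fun a =>
  ⟨fone_cmul a, (cmul_comm a fone).trans (fone_cmul a)⟩

lemma shift_cmul (a b : ℕ → ℂ) : shift (cmul a b) = b 0 • shift a + cmul a (shift b) := by
  apply ps_inj
  apply mul_left_cancel₀ (PowerSeries.X_ne_zero (R := ℂ))
  have h1 := ps_shift (cmul a b)
  have h2 : cmul a b 0 = a 0 * b 0 := by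
    rw [cmul_apply]; simp
  have h3 : PowerSeries.X * ps (shift (cmul a b)) =
      ps a * ps b - PowerSeries.C (a 0) * PowerSeries.C (b 0) := by
    rw [← ps_cmul, h1, h2, map_mul]; ring
  rw [h3, ps_add, ps_smul, ps_cmul, PowerSeries.smul_eq_C_mul]
  have ha := ps_shift a
  have hb := ps_shift b
  have ha' : PowerSeries.X * ps (shift a) = ps a - PowerSeries.C (a 0) := by rw [ha]; ring_nf
  have hb' : PowerSeries.X * ps (shift b) = ps b - PowerSeries.C (b 0) := by rw [hb]; ring_nf
  calc ps a * ps b - PowerSeries.C (a 0) * PowerSeries.C (b 0)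
      = PowerSeries.C (b 0) * (ps a - PowerSeries.C (a 0)) +
          ps a * (ps b - PowerSeries.C (b 0)) := by ring
    _ = PowerSeries.C (b 0) * (PowerSeries.X * ps (shift a)) +
          ps a * (PowerSeries.X * ps (shift b)) := by rw [ha', hb']
    _ = PowerSeries.X * (PowerSeries.C (b 0) * ps (shift a) + ps a * ps (shift b)) := by ring

section UExtAct

variable {E : Type*} [AddCommGroup E] [Module ℂ E]

/-- The action `z (x, y) = (z x + y, 0)` on `E × E`, made unital. -/
noncomputable def uextAct (act : (ℕ → ℂ) →ₗ[ℂ] E →ₗ[ℂ] E) : (ℕ → ℂ) →ₗ[ℂ] (E × E) →ₗ[ℂ] (E × E) :=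
  LinearMap.mk₂ ℂ
    (fun (a : ℕ → ℂ) (p : E × E) => ((act a p.1 + act (shift a) p.2, a 0 • p.2) : E × E))
    (fun a a' p => by
      ext
      · simp only [map_add, LinearMap.add_apply, Prod.fst_add]
        abel
      · simp [add_smul])
    (fun c a p => by
      ext
      · simp
      · simp [smul_smul])
    (fun a p p' => by
      ext
      · simp only [map_add, Prod.fst_add, Prod.snd_add]
        abel
      · simp)
    (fun c a p => by
      ext
      · simp
      · simp [smul_comm c])

lemma uextAct_apply (act : (ℕ → ℂ) →ₗ[ℂ] E →ₗ[ℂ] E) (a : ℕ → ℂ) (p : E × E) :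
    uextAct act a p = (act a p.1 + act (shift a) p.2, a 0 • p.2) := rfl

lemma uextAct_mul (act : (ℕ → ℂ) →ₗ[ℂ] E →ₗ[ℂ] E)
    (h : ∀ a b x, act (cmul a b) x = act a (act b x)) (a b : ℕ → ℂ) (p : E × E) :
    uextAct act (cmul a b) p = uextAct act a (uextAct act b p) := by
  have h2 : cmul a b 0 = a 0 * b 0 := by
    rw [cmul_apply]; simp
  rw [uextAct_apply, uextAct_apply, uextAct_apply]
  ext
  · simp only [h, shift_cmul, map_add, map_smul, LinearMap.add_apply, LinearMap.smul_apply]
    abel
  · simp only [h2, smul_smul]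

lemma continuous_uextAct [UniformSpace E] [FrechetSpace E] (act : (ℕ → ℂ) →ₗ[ℂ] E →ₗ[ℂ] E)
    (hc : Continuous fun p : (ℕ → ℂ) × E => act p.1 p.2) :
    Continuous fun p : (ℕ → ℂ) × (E × E) => uextAct act p.1 p.2 := by
  simp only [uextAct_apply]
  refine Continuous.prodMk ?_ ?_
  · refine Continuous.add ?_ ?_
    · exact hc.comp (continuous_fst.prodMk (continuous_fst.comp continuous_snd))
    · exact hc.comp ((continuous_shift.comp continuous_fst).prodMk
        (continuous_snd.comp continuous_snd))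
  · exact ((continuous_apply 0).comp continuous_fst).smul (continuous_snd.comp continuous_snd)

end UExtAct

/-- The unital extension `X ⊕ X` of `X` in which every element of the first summand is divisible
by `z`. -/
noncomputable def uext (X : FrechetMod.{u} fps) : FrechetMod.{u} fps where
  carrier := X.carrier × X.carrier
  act := uextAct X.act
  act_mul := uextAct_mul X.act X.act_mul
  continuous_act := continuous_uextAct X.act X.continuous_act

lemma uextAct_fone {E : Type*} [AddCommGroup E] [Module ℂ E]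
    (act : (ℕ → ℂ) →ₗ[ℂ] E →ₗ[ℂ] E) (h : ∀ x, act fone x = x) (p : E × E) :
    uextAct act fone p = p := by
  have h4 : shift fone = 0 := by
    funext n
    simp [shift, fone]
  rw [uextAct_apply, h4, h]
  ext
  · simp
  · simp [fone]

lemma uext_unital (X : FrechetMod.{u} fps) (hX : X.Unital fone) : (uext X).Unital fone :=
  fun p => uextAct_fone X.act hX p

section URaw

variable {E : Type*} [AddCommGroup E] [Module ℂ E]

/-- The embedding of `z ℂ[[z]]` in `ℂ[[z]]`. -/
noncomputable def emb : (ℕ → ℂ) →ₗ[ℂ] (ℕ → ℂ) where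
  toFun a := fun n => match n with
    | 0 => 0
    | n + 1 => a n
  map_add' a b := by
    funext n
    cases n <;> simp
  map_smul' c a := by
    funext n
    cases n <;> simp

lemma ps_emb (a : ℕ → ℂ) : ps (emb a) = PowerSeries.X * ps a := by
  ext n
  cases n with
  | zero => simp [ps, emb]
  | succ n => simp [ps, emb, PowerSeries.coeff_succ_X_mul]

lemma continuous_emb : Continuous emb := by
  apply continuous_pi
  intro n
  cases n with
  | zero => exact continuous_const
  | succ n => exact continuous_apply n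

lemma emb_zmul (a b : ℕ → ℂ) : emb (zmul a b) = cmul (emb a) (emb b) := by
  apply ps_inj
  rw [ps_emb, ps_zmul, ps_cmul, ps_emb, ps_emb]
  ring

lemma uextAct_emb_zpow_zero (act : (ℕ → ℂ) →ₗ[ℂ] E →ₗ[ℂ] E)
    (h1 : ∀ x, act fone x = x) (x : E) :
    uextAct act (emb (zpow 0)) (0, x) = (x, 0) := by
  have h4 : shift (emb (zpow 0)) = fone := by
    funext n
    simp [shift, emb, zpow, fone]
  rw [uextAct_apply, h4]
  simp [emb, h1]

lemma uextAct_inl (act : (ℕ → ℂ) →ₗ[ℂ] E →ₗ[ℂ] E) (a : ℕ → ℂ) (x : E) :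
    (act a x, (0 : E)) = uextAct act a (x, 0) := by
  rw [uextAct_apply]
  simp

lemma uraw_div (act : (ℕ → ℂ) →ₗ[ℂ] E →ₗ[ℂ] E) (hone : ∀ x, act fone x = x) (ψ : E × E → E)
    (h1 : ∀ a p, ψ (uextAct act a p) = act a (ψ p)) (h2 : ∀ x, ψ (x, 0) = x) (x : E) :
    ∃ y, act (emb (zpow 0)) y = x := by
  refine ⟨ψ (0, x), ?_⟩
  rw [← h1, uextAct_emb_zpow_zero act hone, h2]

lemma uraw_zero [UniformSpace E] [FrechetSpace E] (act : (ℕ → ℂ) →ₗ[ℂ] E →ₗ[ℂ] E)
    (h : ∀ a b x, act (cmul a b) x = act a (act b x))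
    (hc : Continuous fun p : (ℕ → ℂ) × E => act p.1 p.2)
    (hd : ∀ x, ∃ y, act (emb (zpow 0)) y = x) (x : E) : x = 0 := by
  refine raw_zero (act.comp emb) (fun a b x => ?_) ?_ (fun x => hd x) x
  · change act (emb (zmul a b)) x = act (emb a) (act (emb b) x)
    rw [emb_zmul, h]
  · exact hc.comp ((continuous_emb.comp continuous_fst).prodMk continuous_snd)

end URaw

/-- There is no non-zero unital Fréchet module over `ℂ[[z]]` that is injective among the unital
ones. -/
theorem eq_zero_of_unitalInjective (X : FrechetMod.{u} fps)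
    (hX : X.UnitalInjective fone) (x : X.carrier) :
    x = 0 := by
  obtain ⟨hu, hX⟩ := hX
  obtain ⟨ψ, h1, h2⟩ := hX (uext X) (ContinuousLinearMap.inl ℂ X.carrier X.carrier)
    (uext_unital X hu)
    (fun a x => uextAct_inl X.act a x)
    ⟨ContinuousLinearMap.fst ℂ X.carrier X.carrier, fun x => rfl⟩
  exact uraw_zero X.act X.act_mul X.continuous_act (uraw_div X.act hu ψ h1 h2) x

end Pool.Agent.H352R2
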